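import Pool.Agent.W477.GM.Stms

set_option maxHeartbeats 1000000

namespace Pool.Agent.W477.GM.W597PR

open Pool.Agent.W477.GM

variable {P : Type 1} [PartialOrder P] [OrderTop P]

theorem feq_mk (ι : Type) (U : ι → P → Prop) (x : ι → Nm P) (κ : Type) (W : κ → P → Prop)
    (y : κ → Nm P) (p : P) : feq (.mk ι U x) (.mk κ W y) p ↔
    (∀ i q, q ≤ p → Lab (U i) q → ∃ r, r ≤ q ∧ ∃ j, Lab (W j) r ∧ feq (x i) (y j) r) ∧
    (∀ j q, q ≤ p → Lab (W j) q → ∃ r, r ≤ q ∧ ∃ i, Lab (U i) r ∧ feq (x i) (y j) r) := by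
  rw [feq]

theorem fmem_mk (x : Nm P) (κ : Type) (W : κ → P → Prop) (y : κ → Nm P) (p : P) :
    fmem x (.mk κ W y) p ↔ ∀ q, q ≤ p → ∃ r, r ≤ q ∧ ∃ j, Lab (W j) r ∧ feq x (y j) r := by
  rw [fmem]

theorem top' (q : P) : Lab (fun u => u = (⊤ : P)) q := ⟨⊤, rfl, le_top⟩

theorem chk_eq' (a : PSet.{0}) : ∀ (b : PSet.{0}) (p : P), feq (chk a) (chk b) p ↔ a.Equiv b := by
  induction a with
  | mk α A ih =>
    rintro ⟨β, B⟩ p
    rw [chk, chk, feq_mk, PSet.equiv_iff]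
    constructor
    · rintro ⟨h1, h2⟩
      constructor
      · intro i
        obtain ⟨r, -, j, -, hj⟩ := h1 i p le_rfl (top' p)
        exact ⟨j, (ih i _ _).1 hj⟩
      · intro j
        obtain ⟨r, -, i, -, hi⟩ := h2 j p le_rfl (top' p)
        exact ⟨i, (ih i _ _).1 hi⟩
    · rintro ⟨h1, h2⟩
      constructor
      · intro i q _ _
        obtain ⟨j, hj⟩ := h1 i
        exact ⟨q, le_rfl, j, top' q, (ih i _ _).2 hj⟩
      · intro j q _ _
        obtain ⟨i, hi⟩ := h2 j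
        exact ⟨q, le_rfl, i, top' q, (ih i _ _).2 hi⟩

theorem mem_chk' (E : EqF P) (x : Nm P) (b : PSet.{0}) (p : P) : fmem x (chk b) p ↔
    ∀ q, q ≤ p → ∃ r, r ≤ q ∧ ∃ a, a ∈ b ∧ feq x (chk a) r := by
  obtain ⟨β, B⟩ := b
  rw [chk, fmem_mk]
  constructor
  · intro h q hq
    obtain ⟨r, hr, j, -, hj⟩ := h q hq
    exact ⟨r, hr, B j, PSet.Mem.mk B j, hj⟩
  · intro h q hq
    obtain ⟨r, hr, a, ha, hj⟩ := h q hq
    obtain ⟨j, hj'⟩ := ha
    exact ⟨r, hr, j, top' r, E.trans _ _ _ _ hj ((chk_eq' _ _ _).2 hj')⟩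

theorem chk_mem' (E : EqF P) (a b : PSet.{0}) (p : P) : fmem (chk a) (chk b) p ↔ a ∈ b := by
  rw [mem_chk' E]
  constructor
  · intro h
    obtain ⟨r, -, a', ha', h2⟩ := h p le_rfl
    have h3 : a.Equiv a' := (chk_eq' _ _ _).1 h2
    exact (PSet.Mem.congr_left h3).2 ha'
  · intro h q _
    exact ⟨q, le_rfl, a, h, E.refl _ _⟩

theorem mem_pr' (w x y : Nm P) (p : P) : fmem w (prN x y) p ↔
    ∀ q, q ≤ p → ∃ r, r ≤ q ∧ (feq w x r ∨ feq w y r) := by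
  rw [prN, fmem_mk]
  constructor
  · intro h q hq
    obtain ⟨r, hr, j, -, hj⟩ := h q hq
    cases j
    · exact ⟨r, hr, Or.inr hj⟩
    · exact ⟨r, hr, Or.inl hj⟩
  · intro h q hq
    obtain ⟨r, hr, hj | hj⟩ := h q hq
    · exact ⟨r, hr, true, top' r, hj⟩
    · exact ⟨r, hr, false, top' r, hj⟩

theorem pr_congr (E : EqF P) (x y x' y' : Nm P) (p : P) (h1 : feq x x' p) (h2 : feq y y' p) :
    feq (prN x y) (prN x' y') p := by
  rw [prN, prN, feq_mk]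
  have key : ∀ (i : Bool) (q : P), q ≤ p → feq (cond i x y) (cond i x' y') q := by
    intro i q hq
    cases i
    · exact E.mono _ _ _ _ hq h2
    · exact E.mono _ _ _ _ hq h1
  exact ⟨fun i q hq _ => ⟨q, le_rfl, i, top' q, key i q hq⟩,
    fun i q hq _ => ⟨q, le_rfl, i, top' q, key i q hq⟩⟩

theorem pr_l {x y x' y' : Nm P} {p : P} (h : feq (prN x y) (prN x' y') p) {q : P} (hq : q ≤ p) :
    ∃ r, r ≤ q ∧ (feq x x' r ∨ feq x y' r) := by
  rw [prN, prN, feq_mk] at h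
  obtain ⟨r, hr, j, -, hj⟩ := h.1 true q hq (top' q)
  cases j
  · exact ⟨r, hr, Or.inr hj⟩
  · exact ⟨r, hr, Or.inl hj⟩

theorem pr_r {x y x' y' : Nm P} {p : P} (h : feq (prN x y) (prN x' y') p) {q : P} (hq : q ≤ p) :
    ∃ r, r ≤ q ∧ (feq y x' r ∨ feq y y' r) := by
  rw [prN, prN, feq_mk] at h
  obtain ⟨r, hr, j, -, hj⟩ := h.1 false q hq (top' q)
  cases j
  · exact ⟨r, hr, Or.inr hj⟩
  · exact ⟨r, hr, Or.inl hj⟩

theorem pr_l' {x y x' y' : Nm P} {p : P} (h : feq (prN x y) (prN x' y') p) {q : P} (hq : q ≤ p) :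
    ∃ r, r ≤ q ∧ (feq x x' r ∨ feq y x' r) := by
  rw [prN, prN, feq_mk] at h
  obtain ⟨r, hr, j, -, hj⟩ := h.2 true q hq (top' q)
  cases j
  · exact ⟨r, hr, Or.inr hj⟩
  · exact ⟨r, hr, Or.inl hj⟩

theorem pr_r' {x y x' y' : Nm P} {p : P} (h : feq (prN x y) (prN x' y') p) {q : P} (hq : q ≤ p) :
    ∃ r, r ≤ q ∧ (feq x y' r ∨ feq y y' r) := by
  rw [prN, prN, feq_mk] at h
  obtain ⟨r, hr, j, -, hj⟩ := h.2 false q hq (top' q)
  cases j
  · exact ⟨r, hr, Or.inr hj⟩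
  · exact ⟨r, hr, Or.inl hj⟩

theorem sing2 (E : EqF P) {x x' y' : Nm P} {p : P} (h : feq (prN x x) (prN x' y') p) :
    feq x x' p ∧ feq x y' p := by
  constructor
  · apply E.dense
    intro q hq
    obtain ⟨r, hr, h1 | h1⟩ := pr_l' h hq
    · exact ⟨r, hr, h1⟩
    · exact ⟨r, hr, h1⟩
  · apply E.dense
    intro q hq
    obtain ⟨r, hr, h1 | h1⟩ := pr_r' h hq
    · exact ⟨r, hr, h1⟩
    · exact ⟨r, hr, h1⟩

theorem sing3 (E : EqF P) {x y x' : Nm P} {p : P} (h : feq (prN x y) (prN x' x') p) :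
    feq x x' p ∧ feq y x' p := by
  constructor
  · apply E.dense
    intro q hq
    obtain ⟨r, hr, h1 | h1⟩ := pr_l h hq
    · exact ⟨r, hr, h1⟩
    · exact ⟨r, hr, h1⟩
  · apply E.dense
    intro q hq
    obtain ⟨r, hr, h1 | h1⟩ := pr_r h hq
    · exact ⟨r, hr, h1⟩
    · exact ⟨r, hr, h1⟩

theorem op' (E : EqF P) (x y x' y' : Nm P) (p : P) :
    feq (opN x y) (opN x' y') p ↔ feq x x' p ∧ feq y y' p := by
  unfold opN
  constructor
  swap
  · rintro ⟨h1, h2⟩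
    exact pr_congr E _ _ _ _ _ (pr_congr E _ _ _ _ _ h1 h1) (pr_congr E _ _ _ _ _ h1 h2)
  intro h
  have c1 : feq x x' p := by
    apply E.dense
    intro q hq
    obtain ⟨r, hr, h1 | h1⟩ := pr_l h hq
    · exact ⟨r, hr, (sing2 E h1).1⟩
    · exact ⟨r, hr, (sing2 E h1).1⟩
  refine ⟨c1, ?_⟩
  apply E.dense
  intro q hq
  -- if `y = x'` and `x = y'` then `y = y'`
  have fin : ∀ t, t ≤ q → feq y x' t → feq x y' t → feq y y' t := by
    intro t ht h1 h2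
    exact E.trans _ _ _ _ h1 (E.trans _ _ _ _ (E.symm _ _ _ (E.mono _ _ _ _ (ht.trans hq) c1)) h2)
  obtain ⟨r, hr, hA | hB⟩ := pr_r h hq
  · obtain ⟨-, h2⟩ := sing3 E hA
    obtain ⟨s, hs, h3 | h3⟩ := pr_r' h (hr.trans hq)
    · exact ⟨s, hs.trans hr, fin s (hs.trans hr) (E.mono _ _ _ _ hs h2) (sing2 E h3).2⟩
    · obtain ⟨t, ht, h4 | h4⟩ := pr_r' h3 le_rfl
      · exact ⟨t, ht.trans (hs.trans hr),
          fin t (ht.trans (hs.trans hr)) (E.mono _ _ _ _ (ht.trans hs) h2) h4⟩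
      · exact ⟨t, ht.trans (hs.trans hr), h4⟩
  · obtain ⟨s, hs, h3 | h3⟩ := pr_r hB le_rfl
    · obtain ⟨t, ht, h4 | h4⟩ := pr_r' hB hs
      · exact ⟨t, ht.trans (hs.trans hr), fin t (ht.trans (hs.trans hr)) (E.mono _ _ _ _ ht h3) h4⟩
      · exact ⟨t, ht.trans (hs.trans hr), h4⟩
    · exact ⟨s, hs.trans hr, h3⟩

theorem pr_holds (h : P_EQ) : P_PR := by
  intro P _ _
  have E := h P
  exact
    { top := top'
      chk_eq := chk_eq'
      chk_mem := chk_mem' E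
      mem_chk := mem_chk' E
      mem_pr := mem_pr'
      op := op' E }

end Pool.Agent.W477.GM.W597PR
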